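import Mathlib
import Pool.Agent.N290.RJ.Stm
import Pool.Agent.N290.RJ.Un

/-!
# Riccati recursion for the corona problem on the ball of `ℂ^(d+1)`, part C9: integrals of functions
of `1 - |w|²` against the kernel (project of helper290, the case `d = 1` by helper247, this part by
helper861)
-/

set_option autoImplicit false

open Complex MeasureTheory Set Filter Topology
open scoped ENNReal

namespace Pool.Agent.N861.RJ

open Pool.Agent.N290.RJ

variable {d : ℕ}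

theorem ker_meas (z : E d) : Measurable (N290.RJ.ker z) := by
  have h0 : Continuous (fun w : E d => N290.RJ.ip z w) :=
    ip_continuous.comp (by fun_prop : Continuous fun w : E d => (z, w))
  have h1 : Continuous (Dl z) := by
    unfold Dl
    have := N_continuous (d := d)
    fun_prop
  have h2 : Measurable (fun w => Real.sqrt (Dl z w) ^ (2 * d + 1)) :=
    (h1.measurable.sqrt).pow_const _
  have h3 : Measurable (fun w => ‖1 - N290.RJ.ip z w‖) := (continuous_const.sub h0).norm.measurable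
  unfold N290.RJ.ker
  exact (h3.pow_const d).div (h3.mul h2)

/-! ### The volume estimates -/

theorem norm_fst_lt {ξ : E d} (h : ξ ∈ B d) : ‖ξ.1‖ < 1 := by
  have h1 : ‖ξ.1‖ ^ 2 + ∑ i, ‖ξ.2 i‖ ^ 2 < 1 := h
  have h2 : 0 ≤ ∑ i, ‖ξ.2 i‖ ^ 2 := by positivity
  nlinarith [norm_nonneg ξ.1]

theorem u_ge {x : ℝ} (hx : 0 ≤ x) (ξ : E d) : 1 - x * ‖ξ.1‖ ≤ ‖1 - (x : ℂ) * ξ.1‖ := by
  have h1 : ‖(1 : ℂ)‖ - ‖(x : ℂ) * ξ.1‖ ≤ ‖1 - (x : ℂ) * ξ.1‖ := norm_sub_norm_le _ _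
  rw [norm_one, norm_mul, Complex.norm_real, Real.norm_eq_abs, abs_of_nonneg hx] at h1
  exact h1

theorem pi_eq : ((NNReal.pi : NNReal) : ℝ≥0∞) = ENNReal.ofReal Real.pi := by
  rw [ENNReal.ofReal, ← NNReal.coe_real_pi, Real.toNNReal_coe]

/-- the volume of a polydisc -/
theorem vol_poly (c : ℂ) (a b : ℝ) (ha : 0 ≤ a) (hb : 0 < b) :
    volume (Metric.closedBall c a ×ˢ Metric.ball (0 : Fin d → ℂ) b) =
      ENNReal.ofReal (Real.pi * a ^ 2 * (Real.pi * b ^ 2) ^ d) := by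
  rw [Measure.volume_eq_prod, Measure.prod_prod, Complex.volume_closedBall, pi_eq,
    volume_pi, Measure.pi_ball _ _ hb]
  simp only [Complex.volume_ball, Finset.prod_const, Finset.card_univ, Fintype.card_fin, pi_eq]
  rw [← ENNReal.ofReal_pow ha, ← ENNReal.ofReal_pow hb.le, ← ENNReal.ofReal_mul (by positivity),
    ← ENNReal.ofReal_mul (by positivity), ← ENNReal.ofReal_pow (by positivity),
    ← ENNReal.ofReal_mul (by positivity)]
  congr 1
  ring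

theorem vol_nm (r : ℝ) (hr : 0 < r) :
    volume {ξ : E d | nm ξ ≤ r} ≤ ENNReal.ofReal (Real.pi ^ (d + 1) * (2 * r) ^ (2 * d + 2)) := by
  have h1 : {ξ : E d | nm ξ ≤ r} ⊆
      Metric.closedBall (0 : ℂ) (2 * r) ×ˢ Metric.ball (0 : Fin d → ℂ) (2 * r) := by
    intro ξ hξ
    have h2 : N ξ ≤ r ^ 2 := by
      rw [← nm_sq]
      exact pow_le_pow_left₀ (nm_nonneg ξ) hξ 2
    have h3 : ‖ξ.1‖ ^ 2 + ∑ i, ‖ξ.2 i‖ ^ 2 ≤ r ^ 2 := h2
    rw [mem_prod, mem_closedBall_zero_iff, mem_ball_zero_iff]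
    constructor
    · have h4 : 0 ≤ ∑ i, ‖ξ.2 i‖ ^ 2 := by positivity
      have h5 : ‖ξ.1‖ ≤ r := abs_le_of_sq_le_sq' (by nlinarith) hr.le |>.2
      linarith
    · rw [pi_norm_lt_iff (by positivity)]
      intro i
      have h4 : ‖ξ.2 i‖ ^ 2 ≤ ∑ i, ‖ξ.2 i‖ ^ 2 :=
        Finset.single_le_sum (f := fun i => ‖ξ.2 i‖ ^ 2) (fun _ _ => by positivity)
          (Finset.mem_univ i)
      have h5 : ‖ξ.2 i‖ ≤ r := abs_le_of_sq_le_sq' (by nlinarith [sq_nonneg ‖ξ.1‖]) hr.le |>.2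
      linarith
  refine (measure_mono h1).trans (le_of_eq ?_)
  rw [vol_poly _ _ _ (by positivity) (by positivity)]
  congr 1
  generalize 2 * r = s
  ring

theorem vol_u {x : ℝ} (hx : 0 ≤ x) (hx1 : x < 1) (ε : ℝ) (hε : 0 < ε) :
    volume ({ξ : E d | ‖1 - (x : ℂ) * ξ.1‖ < ε} ∩ B d) ≤
      ENNReal.ofReal (4 * Real.pi * (2 * Real.pi) ^ d * ε ^ (d + 2)) := by
  -- the first coordinate
  have h1 : ∃ (c : ℂ), {ξ : E d | ‖1 - (x : ℂ) * ξ.1‖ < ε} ∩ B d ⊆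
      Metric.closedBall c (2 * ε) ×ˢ Metric.ball (0 : Fin d → ℂ) (Real.sqrt (2 * ε)) := by
    have h2 : ∀ ξ : E d, ‖1 - (x : ℂ) * ξ.1‖ < ε → ξ ∈ B d →
        ξ.2 ∈ Metric.ball (0 : Fin d → ℂ) (Real.sqrt (2 * ε)) := by
      intro ξ h hB
      rw [mem_ball_zero_iff, pi_norm_lt_iff (by positivity)]
      intro i
      have h4 : ‖ξ.2 i‖ ^ 2 ≤ ∑ i, ‖ξ.2 i‖ ^ 2 :=
        Finset.single_le_sum (f := fun i => ‖ξ.2 i‖ ^ 2) (fun _ _ => by positivity)
          (Finset.mem_univ i)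
      apply Real.lt_sqrt_of_sq_lt
      have h3 : ‖ξ.1‖ ^ 2 + ∑ i, ‖ξ.2 i‖ ^ 2 < 1 := hB
      have h4 := norm_fst_lt hB
      have h5 := u_ge hx ξ
      have h6 := norm_nonneg ξ.1
      nlinarith
    by_cases hx2 : 1 / 2 ≤ x
    · refine ⟨(x : ℂ)⁻¹, fun ξ hξ => ⟨?_, h2 ξ hξ.1 hξ.2⟩⟩
      rw [Metric.mem_closedBall, dist_eq_norm]
      have hx0 : (x : ℂ) ≠ 0 := by
        have : x ≠ 0 := by linarith
        exact_mod_cast this
      have h3 : ‖1 - (x : ℂ) * ξ.1‖ = x * ‖ξ.1 - (x : ℂ)⁻¹‖ := by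
        have h4 : 1 - (x : ℂ) * ξ.1 = -((x : ℂ) * (ξ.1 - (x : ℂ)⁻¹)) := by
          rw [mul_sub, mul_inv_cancel₀ hx0]
          ring
        rw [h4, norm_neg, norm_mul, Complex.norm_real, Real.norm_eq_abs, abs_of_nonneg hx]
      have h5 : ‖1 - (x : ℂ) * ξ.1‖ < ε := hξ.1
      rw [h3] at h5
      nlinarith [norm_nonneg (ξ.1 - (x : ℂ)⁻¹)]
    · push Not at hx2
      refine ⟨0, fun ξ hξ => ⟨?_, h2 ξ hξ.1 hξ.2⟩⟩
      rw [mem_closedBall_zero_iff]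
      have h3 := norm_fst_lt hξ.2
      have h4 := u_ge hx ξ
      have h5 : ‖1 - (x : ℂ) * ξ.1‖ < ε := hξ.1
      have h6 := norm_nonneg ξ.1
      nlinarith
  obtain ⟨c, hc⟩ := h1
  refine (measure_mono hc).trans (le_of_eq ?_)
  rw [vol_poly _ _ _ (by positivity) (by positivity), Real.sq_sqrt (by positivity)]
  congr 1
  ring

/-! ### The two integrals -/

theorem int_nm : ∫⁻ ξ in B d, ENNReal.ofReal (1 / nm ξ ^ (2 * d + 1)) ≤
    ENNReal.ofReal (2 * 2 ^ (2 * d + 1) * (Real.pi ^ (d + 1) * 2 ^ (2 * d + 2))) := by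
  have hcm : Continuous (nm : E d → ℝ) := N_continuous.sqrt
  have hm : ∀ j : ℕ, MeasurableSet {ξ : E d | nm ξ ≤ (1 / 2 : ℝ) ^ j} := fun j =>
    (isClosed_le hcm continuous_const).measurableSet
  have h1 : ∀ ξ ∈ B d, ENNReal.ofReal (1 / nm ξ ^ (2 * d + 1)) ≤ ∑' j : ℕ,
      ({ξ : E d | nm ξ ≤ (1 / 2 : ℝ) ^ j}).indicator
        (fun _ => ENNReal.ofReal ((2 ^ (2 * d + 1)) ^ (j + 1))) ξ := by
    intro ξ hξ
    by_cases h0 : nm ξ = 0
    · rw [h0]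
      simp
    · have h2 : 0 < nm ξ := lt_of_le_of_ne (nm_nonneg ξ) (Ne.symm h0)
      have h3 : nm ξ ≤ 1 := (mem_B_nm.1 hξ).le
      obtain ⟨j, hj1, hj2⟩ := exists_nat_pow_near_of_lt_one h2 h3
        (by norm_num : (0 : ℝ) < 1 / 2) (by norm_num)
      refine le_trans ?_ (ENNReal.le_tsum j)
      rw [indicator_of_mem (by exact hj2)]
      apply ENNReal.ofReal_le_ofReal
      rw [div_le_iff₀ (by positivity)]
      have h4 : ((1 / 2 : ℝ) ^ (j + 1)) ^ (2 * d + 1) ≤ nm ξ ^ (2 * d + 1) := by gcongr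
      have h5 : ((2 : ℝ) ^ (2 * d + 1)) ^ (j + 1) * ((1 / 2 : ℝ) ^ (j + 1)) ^ (2 * d + 1) = 1 := by
        rw [← pow_mul, ← pow_mul, mul_comm (j + 1) (2 * d + 1), ← mul_pow]
        norm_num
      rw [← h5]
      gcongr
  calc ∫⁻ ξ in B d, ENNReal.ofReal (1 / nm ξ ^ (2 * d + 1))
      ≤ ∫⁻ ξ in B d, ∑' j : ℕ, ({ξ : E d | nm ξ ≤ (1 / 2 : ℝ) ^ j}).indicator
          (fun _ => ENNReal.ofReal ((2 ^ (2 * d + 1)) ^ (j + 1))) ξ := setLIntegral_mono' B_meas h1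
    _ = ∑' j : ℕ, ∫⁻ ξ in B d, ({ξ : E d | nm ξ ≤ (1 / 2 : ℝ) ^ j}).indicator
          (fun _ => ENNReal.ofReal ((2 ^ (2 * d + 1)) ^ (j + 1))) ξ :=
        lintegral_tsum fun j => (measurable_const.indicator (hm j)).aemeasurable
    _ ≤ ∑' j : ℕ, ENNReal.ofReal
          (2 ^ (2 * d + 1) * (Real.pi ^ (d + 1) * 2 ^ (2 * d + 2)) * (1 / 2) ^ j) := by
        refine ENNReal.tsum_le_tsum fun j => ?_
        rw [lintegral_indicator (hm j), setLIntegral_const, Measure.restrict_apply (hm j)]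
        calc ENNReal.ofReal ((2 ^ (2 * d + 1)) ^ (j + 1)) *
              volume ({ξ : E d | nm ξ ≤ (1 / 2 : ℝ) ^ j} ∩ B d)
            ≤ ENNReal.ofReal ((2 ^ (2 * d + 1)) ^ (j + 1)) *
                ENNReal.ofReal (Real.pi ^ (d + 1) * (2 * (1 / 2) ^ j) ^ (2 * d + 2)) := by
              gcongr
              exact (measure_mono inter_subset_left).trans (vol_nm _ (by positivity))
          _ = ENNReal.ofReal
                (2 ^ (2 * d + 1) * (Real.pi ^ (d + 1) * 2 ^ (2 * d + 2)) * (1 / 2) ^ j) := by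
              rw [← ENNReal.ofReal_mul (by positivity)]
              congr 1
              have h5 : ((2 : ℝ) ^ (2 * d + 1)) ^ j * ((1 / 2 : ℝ) ^ j) ^ (2 * d + 1) = 1 := by
                rw [← pow_mul, ← pow_mul, mul_comm j (2 * d + 1), ← mul_pow]
                norm_num
              rw [pow_succ, mul_pow, show 2 * d + 2 = (2 * d + 1) + 1 by ring,
                pow_succ ((1 / 2 : ℝ) ^ j) (2 * d + 1)]
              linear_combination (2 ^ (2 * d + 1) * (Real.pi ^ (d + 1) * 2 ^ (2 * d + 1 + 1)) *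
                (1 / 2) ^ j) * h5
    _ = ENNReal.ofReal (∑' j : ℕ,
          2 ^ (2 * d + 1) * (Real.pi ^ (d + 1) * 2 ^ (2 * d + 2)) * (1 / 2) ^ j) := by
        rw [ENNReal.ofReal_tsum_of_nonneg (fun j => by positivity)
          ((summable_geometric_of_lt_one (by norm_num) (by norm_num)).mul_left _)]
    _ = _ := by
        rw [tsum_mul_left, tsum_geometric_of_lt_one (by norm_num) (by norm_num)]
        congr 1
        ring

theorem sum_le (φ : ℝ → ℝ) (hφ : Monotone φ) (h0 : ∀ t, 0 ≤ φ t) (h1 : ∀ t, φ t ≤ 1) :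
    ∑' j : ℕ, ENNReal.ofReal (φ (4 / 2 ^ j)) ≤
      3 + 2 * ∫⁻ t in Ioo (0 : ℝ) 1, ENNReal.ofReal (φ t / t) := by
  have hs : ∑ i ∈ Finset.range 3, ENNReal.ofReal (φ (4 / 2 ^ i)) +
      ∑' i : ℕ, ENNReal.ofReal (φ (4 / 2 ^ (i + 3))) = ∑' i : ℕ, ENNReal.ofReal (φ (4 / 2 ^ i)) :=
    Summable.sum_add_tsum_nat_add' (f := fun i : ℕ => ENNReal.ofReal (φ (4 / 2 ^ i)))
      ENNReal.summable
  rw [← hs]
  refine add_le_add ?_ ?_
  · calc ∑ i ∈ Finset.range 3, ENNReal.ofReal (φ (4 / 2 ^ i)) ≤ ∑ i ∈ Finset.range 3, (1 : ℝ≥0∞) :=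
          Finset.sum_le_sum fun i _ => by
            rw [← ENNReal.ofReal_one]
            exact ENNReal.ofReal_le_ofReal (h1 _)
      _ = 3 := by simp
  · have h2 : ∀ j : ℕ, ENNReal.ofReal (φ (4 / 2 ^ (j + 3))) ≤
        2 * ∫⁻ t in Ioo ((1 / 2 : ℝ) ^ (j + 1)) ((1 / 2) ^ j), ENNReal.ofReal (φ t / t) := by
      intro j
      have e : (4 : ℝ) / 2 ^ (j + 3) = (1 / 2) ^ (j + 1) := by
        rw [one_div, inv_pow, pow_add, pow_add]
        field_simp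
        norm_num
      rw [e]
      set a : ℝ := φ ((1 / 2) ^ (j + 1)) with ha
      have ha0 : 0 ≤ a := h0 _
      have h3 : ENNReal.ofReal (a / (1 / 2) ^ j) *
          volume (Ioo ((1 / 2 : ℝ) ^ (j + 1)) ((1 / 2) ^ j)) ≤
          ∫⁻ t in Ioo ((1 / 2 : ℝ) ^ (j + 1)) ((1 / 2) ^ j), ENNReal.ofReal (φ t / t) := by
        rw [← setLIntegral_const]
        refine setLIntegral_mono' measurableSet_Ioo fun t ht => ?_
        apply ENNReal.ofReal_le_ofReal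
        have ht0 : 0 < t := lt_trans (by positivity) ht.1
        have h4 : a ≤ φ t := hφ ht.1.le
        have h5 : 0 ≤ φ t := h0 t
        calc a / (1 / 2) ^ j ≤ φ t / (1 / 2) ^ j := by gcongr
          _ ≤ φ t / t := by
            apply div_le_div_of_nonneg_left h5 ht0 ht.2.le
      have h4 : ENNReal.ofReal (a / (1 / 2) ^ j) *
          volume (Ioo ((1 / 2 : ℝ) ^ (j + 1)) ((1 / 2) ^ j)) = ENNReal.ofReal (a / 2) := by
        rw [Real.volume_Ioo, ← ENNReal.ofReal_mul (by positivity)]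
        congr 1
        rw [pow_succ]
        field_simp
        ring
      rw [h4] at h3
      calc ENNReal.ofReal a = 2 * ENNReal.ofReal (a / 2) := by
            rw [show (2 : ℝ≥0∞) = ENNReal.ofReal 2 by simp, ← ENNReal.ofReal_mul (by norm_num)]
            congr 1
            ring
        _ ≤ _ := by gcongr
    refine (ENNReal.tsum_le_tsum h2).trans ?_
    rw [ENNReal.tsum_mul_left]
    gcongr
    have hanti : Antitone (fun j : ℕ => (1 / 2 : ℝ) ^ j) := fun i j hij =>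
      pow_le_pow_of_le_one (by norm_num) (by norm_num) hij
    have hdis : Pairwise (Function.onFun Disjoint
        (fun j : ℕ => Ioo ((1 / 2 : ℝ) ^ (j + 1)) ((1 / 2) ^ j))) :=
      hanti.pairwise_disjoint_on_Ioo_succ
    rw [← lintegral_iUnion (fun j => measurableSet_Ioo) hdis]
    apply lintegral_mono_set
    intro t ht
    obtain ⟨j, hj⟩ := mem_iUnion.1 ht
    exact ⟨lt_trans (by positivity) hj.1, lt_of_lt_of_le hj.2 (pow_le_one₀ (by norm_num) (by norm_num))⟩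

theorem int_u {x : ℝ} (hx : 0 ≤ x) (hx1 : x < 1) (φ : ℝ → ℝ) (hφ : Monotone φ)
    (h0 : ∀ t, 0 ≤ φ t) (h1 : ∀ t, φ t ≤ 1) :
    ∫⁻ ξ in B d, ENNReal.ofReal
        (φ (4 * (1 - x) / ‖1 - (x : ℂ) * ξ.1‖) / ‖1 - (x : ℂ) * ξ.1‖ ^ (d + 2)) ≤
      ENNReal.ofReal (4 * Real.pi * (2 * Real.pi) ^ d * 2 ^ (d + 2)) *
        (3 + 2 * ∫⁻ t in Ioo (0 : ℝ) 1, ENNReal.ofReal (φ t / t)) := by
  set δ : ℝ := 1 - x with hd
  have hd0 : 0 < δ := by rw [hd]; linarith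
  have hcu : Continuous (fun ξ : E d => ‖1 - (x : ℂ) * ξ.1‖) := by fun_prop
  have hm : ∀ j : ℕ, MeasurableSet {ξ : E d | ‖1 - (x : ℂ) * ξ.1‖ < δ * 2 ^ (j + 1)} := fun j =>
    (isOpen_lt hcu continuous_const).measurableSet
  have h2 : ∀ ξ ∈ B d, ENNReal.ofReal
      (φ (4 * δ / ‖1 - (x : ℂ) * ξ.1‖) / ‖1 - (x : ℂ) * ξ.1‖ ^ (d + 2)) ≤
      ∑' j : ℕ, ({ξ : E d | ‖1 - (x : ℂ) * ξ.1‖ < δ * 2 ^ (j + 1)}).indicator
        (fun _ => ENNReal.ofReal (φ (4 / 2 ^ j) / (δ * 2 ^ j) ^ (d + 2))) ξ := by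
    intro ξ hξ
    set u : ℝ := ‖1 - (x : ℂ) * ξ.1‖ with hu
    have hud : δ ≤ u := by
      have h3 := u_ge hx ξ
      have h4 := norm_fst_lt hξ
      have h5 := norm_nonneg ξ.1
      rw [hd]
      nlinarith
    have hu0 : 0 < u := lt_of_lt_of_le hd0 hud
    obtain ⟨j, hj1, hj2⟩ := exists_nat_pow_near (show 1 ≤ u / δ from (one_le_div hd0).2 hud)
      (by norm_num : (1 : ℝ) < 2)
    refine le_trans ?_ (ENNReal.le_tsum j)
    have h3 : δ * 2 ^ j ≤ u := by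
      rw [le_div_iff₀ hd0] at hj1
      linarith
    have h4 : u < δ * 2 ^ (j + 1) := by
      rw [div_lt_iff₀ hd0] at hj2
      linarith
    rw [indicator_of_mem (by exact h4)]
    apply ENNReal.ofReal_le_ofReal
    have h5 : φ (4 * δ / u) ≤ φ (4 / 2 ^ j) := by
      apply hφ
      rw [div_le_div_iff₀ hu0 (by positivity)]
      nlinarith
    have h6 := h0 (4 / 2 ^ j)
    gcongr
  calc ∫⁻ ξ in B d, ENNReal.ofReal
        (φ (4 * δ / ‖1 - (x : ℂ) * ξ.1‖) / ‖1 - (x : ℂ) * ξ.1‖ ^ (d + 2))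
      ≤ ∫⁻ ξ in B d, ∑' j : ℕ, ({ξ : E d | ‖1 - (x : ℂ) * ξ.1‖ < δ * 2 ^ (j + 1)}).indicator
        (fun _ => ENNReal.ofReal (φ (4 / 2 ^ j) / (δ * 2 ^ j) ^ (d + 2))) ξ :=
        setLIntegral_mono' B_meas h2
    _ = ∑' j : ℕ, ∫⁻ ξ in B d, ({ξ : E d | ‖1 - (x : ℂ) * ξ.1‖ < δ * 2 ^ (j + 1)}).indicator
        (fun _ => ENNReal.ofReal (φ (4 / 2 ^ j) / (δ * 2 ^ j) ^ (d + 2))) ξ :=
        lintegral_tsum fun j => (measurable_const.indicator (hm j)).aemeasurable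
    _ ≤ ∑' j : ℕ, ENNReal.ofReal (4 * Real.pi * (2 * Real.pi) ^ d * 2 ^ (d + 2)) *
          ENNReal.ofReal (φ (4 / 2 ^ j)) := by
        refine ENNReal.tsum_le_tsum fun j => ?_
        rw [lintegral_indicator (hm j), setLIntegral_const, Measure.restrict_apply (hm j)]
        have h6 := h0 (4 / 2 ^ j)
        calc ENNReal.ofReal (φ (4 / 2 ^ j) / (δ * 2 ^ j) ^ (d + 2)) *
              volume ({ξ : E d | ‖1 - (x : ℂ) * ξ.1‖ < δ * 2 ^ (j + 1)} ∩ B d)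
            ≤ ENNReal.ofReal (φ (4 / 2 ^ j) / (δ * 2 ^ j) ^ (d + 2)) *
              ENNReal.ofReal (4 * Real.pi * (2 * Real.pi) ^ d * (δ * 2 ^ (j + 1)) ^ (d + 2)) := by
              gcongr
              exact vol_u hx hx1 _ (by positivity)
          _ = ENNReal.ofReal (4 * Real.pi * (2 * Real.pi) ^ d * 2 ^ (d + 2)) *
                ENNReal.ofReal (φ (4 / 2 ^ j)) := by
              rw [← ENNReal.ofReal_mul (by positivity), ← ENNReal.ofReal_mul (by positivity)]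
              congr 1
              have e : (δ * 2 ^ (j + 1)) ^ (d + 2) = (δ * 2 ^ j) ^ (d + 2) * 2 ^ (d + 2) := by
                rw [← mul_pow]
                congr 1
                ring
              rw [e]
              have : (δ * 2 ^ j) ^ (d + 2) ≠ 0 := by positivity
              field_simp
    _ = ENNReal.ofReal (4 * Real.pi * (2 * Real.pi) ^ d * 2 ^ (d + 2)) *
          ∑' j : ℕ, ENNReal.ofReal (φ (4 / 2 ^ j)) := ENNReal.tsum_mul_left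
    _ ≤ _ := by
        gcongr
        exact sum_le φ hφ h0 h1

/-- the pointwise estimate -/
theorem ptwise (h6 : C6 d) {x : ℝ} (hx : 0 ≤ x) (hx1 : x < 1) (φ : ℝ → ℝ) (hφ : Monotone φ)
    (h0 : ∀ t, 0 ≤ φ t) (h1 : ∀ t, φ t ≤ 1) {ξ : E d} (hξ : ξ ∈ B d) :
    ((1 - x ^ 2) / ‖1 - (x : ℂ) * ξ.1‖ ^ 2) ^ (d + 2) *
        (φ (1 - N (Ph x ξ)) * N290.RJ.ker ((x : ℂ), 0) (Ph x ξ)) ≤
      2 ^ (d + 2) * (1 / nm ξ ^ (2 * d + 1)) +
        2 ^ (2 * d + 1) *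
          (φ (4 * (1 - x) / ‖1 - (x : ℂ) * ξ.1‖) / ‖1 - (x : ℂ) * ξ.1‖ ^ (d + 2)) := by
  obtain ⟨-, -, e1, -, e0, e2⟩ := h6 x hx hx1 ξ hξ
  unfold N290.RJ.ker
  rw [e0, e1, e2, norm_div, RCLike.norm_conj]
  set u : ℝ := ‖1 - (x : ℂ) * ξ.1‖ with hu
  have hux := u_ge hx ξ
  rw [← hu] at hux
  have hf := norm_fst_lt hξ
  have hf0 := norm_nonneg ξ.1
  have hN0 := N_nonneg ξ
  have hN1 : N ξ < 1 := hξ
  have hn0 := nm_nonneg ξ
  have hn2 := nm_sq ξ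
  have hx2 : 0 < 1 - x ^ 2 := by nlinarith
  have hu0 : 0 < u := by nlinarith
  have hs0 : 0 ≤ ∑ i, ‖ξ.2 i‖ ^ 2 := by positivity
  have hNf : 1 - N ξ ≤ 1 - ‖ξ.1‖ ^ 2 := by
    unfold N
    linarith
  have hNu : 1 - N ξ ≤ 2 * u := by nlinarith
  have e7 : ‖(1 : ℂ) - (x : ℂ) ^ 2‖ = 1 - x ^ 2 := by
    have : (1 : ℂ) - (x : ℂ) ^ 2 = ((1 - x ^ 2 : ℝ) : ℂ) := by push_cast; rfl
    rw [this, Complex.norm_real, Real.norm_eq_abs, abs_of_pos hx2]
  rw [e7]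
  -- the square root
  have e3 : Real.sqrt ((1 - x ^ 2) ^ 2 * N ξ / u ^ 2) = (1 - x ^ 2) / u * nm ξ := by
    have e4 : (1 - x ^ 2) ^ 2 * N ξ / u ^ 2 = ((1 - x ^ 2) / u * nm ξ) ^ 2 := by
      rw [mul_pow, div_pow, hn2]
      ring
    rw [e4, Real.sqrt_sq (by positivity)]
  rw [e3]
  -- the argument
  have e5 : (1 - x ^ 2) * (1 - N ξ) / u ^ 2 ≤ 4 * (1 - x) / u := by
    rw [div_le_div_iff₀ (by positivity) hu0]
    have e6 : (1 - x ^ 2) * (1 - N ξ) ≤ (2 * (1 - x)) * (2 * u) := by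
      have e7 : 1 - x ^ 2 ≤ 2 * (1 - x) := by nlinarith
      have e8 : 0 ≤ 1 - N ξ := by linarith
      exact mul_le_mul e7 hNu e8 (by linarith)
    nlinarith
  have hT := hφ e5
  have hT1 := h1 ((1 - x ^ 2) * (1 - N ξ) / u ^ 2)
  have hT0 := h0 ((1 - x ^ 2) * (1 - N ξ) / u ^ 2)
  have hS0 := h0 (4 * (1 - x) / u)
  generalize φ ((1 - x ^ 2) * (1 - N ξ) / u ^ 2) = T at *
  generalize φ (4 * (1 - x) / u) = S at *
  by_cases hn : nm ξ = 0
  · rw [hn]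
    have : 0 ≤ S / u ^ (d + 2) := by positivity
    rw [mul_zero, zero_pow (by omega), mul_zero, div_zero, mul_zero, mul_zero, div_zero, mul_zero,
      zero_add]
    positivity
  have hnp : 0 < nm ξ := lt_of_le_of_ne hn0 (Ne.symm hn)
  have e9 : ((1 - x ^ 2) / u ^ 2) ^ (d + 2) * (T * (((1 - x ^ 2) / u) ^ d /
      ((1 - x ^ 2) / u * ((1 - x ^ 2) / u * nm ξ) ^ (2 * d + 1)))) =
      T / u ^ (d + 2) * (1 / nm ξ ^ (2 * d + 1)) := by
    have ha : (1 - x ^ 2) / u ^ 2 = (1 - x ^ 2) / u / u := by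
      rw [div_div, ← sq]
    rw [ha]
    have ha0 : 0 < (1 - x ^ 2) / u := by positivity
    generalize (1 - x ^ 2) / u = a at *
    rw [div_pow, mul_pow]
    have e10 : a ^ d / (a * (a ^ (2 * d + 1) * nm ξ ^ (2 * d + 1))) =
        1 / (a ^ (d + 2) * nm ξ ^ (2 * d + 1)) := by
      rw [div_eq_div_iff (by positivity) (by positivity)]
      have : a ^ d * (a ^ (d + 2) * nm ξ ^ (2 * d + 1)) =
        1 * (a * (a ^ (2 * d + 1) * nm ξ ^ (2 * d + 1))) := by ring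
      exact this
    rw [e10]
    field_simp
  rw [e9]
  rcases le_or_gt (nm ξ) (1 / 2) with hc | hc
  · have h7 : 1 / 2 ≤ u := by
      have h8 : ‖ξ.1‖ ^ 2 ≤ N ξ := by unfold N; linarith
      have h9 : ‖ξ.1‖ ≤ nm ξ := by
        rw [← hn2] at h8
        exact abs_le_of_sq_le_sq' h8 hn0 |>.2
      nlinarith
    have h8 : T / u ^ (d + 2) ≤ 2 ^ (d + 2) := by
      rw [div_le_iff₀ (by positivity)]
      have h9 : (1 / 2 : ℝ) ^ (d + 2) ≤ u ^ (d + 2) := by gcongr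
      have h10 : (2 : ℝ) ^ (d + 2) * (1 / 2) ^ (d + 2) = 1 := by
        rw [← mul_pow]; norm_num
      have h11 : (2 : ℝ) ^ (d + 2) * (1 / 2) ^ (d + 2) ≤ 2 ^ (d + 2) * u ^ (d + 2) := by gcongr
      linarith
    have h9 : T / u ^ (d + 2) * (1 / nm ξ ^ (2 * d + 1)) ≤
        2 ^ (d + 2) * (1 / nm ξ ^ (2 * d + 1)) := by gcongr
    have h10 : 0 ≤ 2 ^ (2 * d + 1) * (S / u ^ (d + 2)) := by positivity
    linarith
  · have h7 : 1 / nm ξ ^ (2 * d + 1) ≤ 2 ^ (2 * d + 1) := by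
      rw [div_le_iff₀ (by positivity)]
      have h9 : (1 / 2 : ℝ) ^ (2 * d + 1) ≤ nm ξ ^ (2 * d + 1) := by gcongr
      have h10 : (2 : ℝ) ^ (2 * d + 1) * (1 / 2) ^ (2 * d + 1) = 1 := by
        rw [← mul_pow]; norm_num
      have h11 : (2 : ℝ) ^ (2 * d + 1) * (1 / 2) ^ (2 * d + 1) ≤
        2 ^ (2 * d + 1) * nm ξ ^ (2 * d + 1) := by gcongr
      linarith
    have h8 : T / u ^ (d + 2) * (1 / nm ξ ^ (2 * d + 1)) ≤ S / u ^ (d + 2) * 2 ^ (2 * d + 1) := by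
      gcongr
    have h10 : 0 ≤ 2 ^ (d + 2) * (1 / nm ξ ^ (2 * d + 1)) := by positivity
    linarith

theorem C9_of (d : ℕ) (h3 : C3 d) (h4 : C4 d) (h4b : C4b d) (h6 : C6 d) : C9 d := by
  set a₁ : ℝ := 2 * 2 ^ (2 * d + 1) * (Real.pi ^ (d + 1) * 2 ^ (2 * d + 2)) with ha₁
  set a₂ : ℝ := 4 * Real.pi * (2 * Real.pi) ^ d * 2 ^ (d + 2) with ha₂
  have ha₁0 : 0 < a₁ := by rw [ha₁]; positivity
  have ha₂0 : 0 < a₂ := by rw [ha₂]; positivity
  refine ⟨2 ^ (d + 2) * a₁ + 2 ^ (2 * d + 1) * (a₂ * 3), by positivity, ?_⟩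
  intro φ hφ h0 h1 z hz
  set J : ℝ≥0∞ := ∫⁻ t in Ioo (0 : ℝ) 1, ENNReal.ofReal (φ t / t) with hJ
  -- reduction to a point `(x, 0)`
  obtain ⟨U, hU, -, hUz⟩ := h4b z
  obtain ⟨-, -, h4c⟩ := h4 U hU
  set x : ℝ := nm z with hxdef
  have hx : 0 ≤ x := nm_nonneg z
  have hx1 : x < 1 := mem_B_nm.1 hz
  have e1 : ∫⁻ w in B d, ENNReal.ofReal (φ (1 - N w) * N290.RJ.ker z w) =
      ∫⁻ w in B d, ENNReal.ofReal (φ (1 - N w) * N290.RJ.ker ((x : ℂ), 0) w) := by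
    rw [h4c (fun w => ENNReal.ofReal (φ (1 - N w) * N290.RJ.ker z w))]
    refine lintegral_congr fun w => ?_
    rw [hU w]
    conv_lhs => rw [← hUz]
    rw [hU.ker]
  -- change of variables
  obtain ⟨-, h3x, -⟩ := h3 x hx hx1
  have hF : Measurable (fun w : E d =>
      ENNReal.ofReal (φ (1 - N w) * N290.RJ.ker ((x : ℂ), 0) w)) := by
    have m1 : Measurable (fun w : E d => φ (1 - N w)) :=
      hφ.measurable.comp (N_continuous.measurable.const_sub 1)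
    exact (m1.mul (ker_meas _)).ennreal_ofReal
  rw [e1, h3x _ hF]
  have hcn : Continuous (nm : E d → ℝ) := N_continuous.sqrt
  calc ∫⁻ ξ in B d, ENNReal.ofReal (((1 - x ^ 2) / ‖1 - (x : ℂ) * ξ.1‖ ^ 2) ^ (d + 2)) *
        ENNReal.ofReal (φ (1 - N (Ph x ξ)) * N290.RJ.ker ((x : ℂ), 0) (Ph x ξ))
      ≤ ∫⁻ ξ in B d, (ENNReal.ofReal (2 ^ (d + 2)) * ENNReal.ofReal (1 / nm ξ ^ (2 * d + 1)) +
          ENNReal.ofReal (2 ^ (2 * d + 1)) *
          ENNReal.ofReal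
            (φ (4 * (1 - x) / ‖1 - (x : ℂ) * ξ.1‖) / ‖1 - (x : ℂ) * ξ.1‖ ^ (d + 2))) := by
        refine setLIntegral_mono' B_meas fun ξ hξ => ?_
        have hx2 : 0 ≤ 1 - x ^ 2 := by nlinarith
        have hn := nm_nonneg ξ
        have hS := h0 (4 * (1 - x) / ‖1 - (x : ℂ) * ξ.1‖)
        rw [← ENNReal.ofReal_mul (by positivity), ← ENNReal.ofReal_mul (by positivity),
          ← ENNReal.ofReal_mul (by positivity), ← ENNReal.ofReal_add (by positivity) (by positivity)]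
        exact ENNReal.ofReal_le_ofReal (ptwise h6 hx hx1 φ hφ h0 h1 hξ)
    _ = ENNReal.ofReal (2 ^ (d + 2)) * (∫⁻ ξ in B d, ENNReal.ofReal (1 / nm ξ ^ (2 * d + 1))) +
          ENNReal.ofReal (2 ^ (2 * d + 1)) *
          ∫⁻ ξ in B d, ENNReal.ofReal
            (φ (4 * (1 - x) / ‖1 - (x : ℂ) * ξ.1‖) / ‖1 - (x : ℂ) * ξ.1‖ ^ (d + 2)) := by
        have m1 : Measurable (fun ξ : E d => ENNReal.ofReal (1 / nm ξ ^ (2 * d + 1))) :=
          ((hcn.measurable.pow_const _).const_div 1).ennreal_ofReal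
        rw [lintegral_add_left (m1.const_mul _), lintegral_const_mul' _ _ ENNReal.ofReal_ne_top,
          lintegral_const_mul' _ _ ENNReal.ofReal_ne_top]
    _ ≤ ENNReal.ofReal (2 ^ (d + 2)) * ENNReal.ofReal a₁ + ENNReal.ofReal (2 ^ (2 * d + 1)) *
          (ENNReal.ofReal a₂ * (3 + 2 * J)) := by
        gcongr
        · exact int_nm
        · exact int_u hx hx1 φ hφ h0 h1
    _ ≤ ENNReal.ofReal (2 ^ (d + 2)) * ENNReal.ofReal a₁ * (1 + J) +
          ENNReal.ofReal (2 ^ (2 * d + 1)) * (ENNReal.ofReal a₂ * (3 * (1 + J))) := by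
        have k1 : (1 : ℝ≥0∞) ≤ 1 + J := le_self_add
        have k2 : 3 + 2 * J ≤ 3 * (1 + J) := by
          rw [mul_add, mul_one]
          gcongr
          norm_num
        refine add_le_add ?_ ?_
        · calc ENNReal.ofReal (2 ^ (d + 2)) * ENNReal.ofReal a₁
              = ENNReal.ofReal (2 ^ (d + 2)) * ENNReal.ofReal a₁ * 1 := (mul_one _).symm
            _ ≤ _ := mul_le_mul_right k1 _
        · exact mul_le_mul_right (mul_le_mul_right k2 _) _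
    _ = ENNReal.ofReal (2 ^ (d + 2) * a₁ + 2 ^ (2 * d + 1) * (a₂ * 3)) * (1 + J) := by
        have k3 : ENNReal.ofReal (2 ^ (d + 2) * a₁) =
            ENNReal.ofReal (2 ^ (d + 2)) * ENNReal.ofReal a₁ := ENNReal.ofReal_mul (by positivity)
        have k4 : ENNReal.ofReal (2 ^ (2 * d + 1) * (a₂ * 3)) =
            ENNReal.ofReal (2 ^ (2 * d + 1)) * (ENNReal.ofReal a₂ * 3) := by
          rw [ENNReal.ofReal_mul (by positivity), ENNReal.ofReal_mul (q := 3) (by positivity)]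
          simp
        rw [ENNReal.ofReal_add (by positivity) (by positivity), k3, k4]
        ring

end Pool.Agent.N861.RJ
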